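import Mathlib
import Pool.Agent.H890.Ca8

/-!
MP_9f99c5_ag, Q1: the boundary can be removed. The cone conjecture for all klt Calabi-Yau pairs
`(X, Δ)` with a `ℚ`-Cartier boundary follows from the cone conjecture for klt Calabi-Yau varieties.
-/

set_option autoImplicit false

namespace Pool.Agent.Results.MP_9f99c5_ag.BoundaryRemovalCones

open FF Pool.Agent.Y172 Pool.Agent.R887 Pool.Agent.H890

/-- (1) Let `X` be a normal projective variety over `ℂ` of dimension `n ≥ 1` with function field `K`
(`y` is its generic point, in homogeneous coordinates), `Δ` an effective `ℚ`-divisor such that `b Δ`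
is Cartier, `b ≥ 2`. Then there is a normal projective variety `V` of dimension `n + 2 b - 2`, with
generic point `v` and function field `M`, birational to `X × P ^ (2 b - 2)` (`M` is the field of
rational functions in `2 b - 2` variables `t` over `K`), such that

* `V` is klt (without boundary) if `(X, Δ)` is klt;
* `K_V` is `ℚ`-linearly equivalent to zero if `K_X + Δ` is `ℚ`-linearly equivalent to zero;
* every `ℚ`-divisor `E` on `X` has a pull-back to `V`, which is nef if and only if `E` is nef;
* if `K_X + Δ` is `ℚ`-linearly equivalent to zero, the cone conjecture for `V` implies the cone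
  conjecture for the pair `(X, Δ)`, that is, for the group of the automorphisms of `X` which preserve
  `Δ`.

(2) Hence the following statements are equivalent: the cone conjecture for all klt Calabi-Yau
varieties (in all dimensions, without boundary); the cone conjecture for all klt Calabi-Yau pairs
`(X, Δ)` such that `Δ` is an effective `ℚ`-divisor and some multiple `b Δ`, `b ≥ 1`, is Cartier; and
the cone conjecture for the klt Calabi-Yau varieties which are birational to `Z × P ^ m` for some
variety `Z` and some `m ≥ 2`. -/
theorem result :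
    (∀ (K : Type) [Field K] [Algebra ℂ K] (n b N : ℕ) (y : Fin (N + 1) → K)
      (Δ : Place ℂ K → ℚ), Algebra.trdeg ℂ K = n → 1 ≤ n → 2 ≤ b → NormalModel y →
      Effective y Δ → CartierMul y n b Δ →
      ∃ (M : Type) (_ : Field M) (_ : Algebra ℂ M) (_ : Algebra K M) (_ : IsScalarTower ℂ K M)
        (t : Fin (2 * b - 2) → M) (N' : ℕ) (v : Fin (N' + 1) → M), AlgebraicIndependent K t ∧
        IntermediateField.adjoin K (Set.range t) = ⊤ ∧
        ConeReplaces v (n + (2 * b - 2)) y n Δ) ∧
    ((∀ (K : Type) [Field K] [Algebra ℂ K] (n : ℕ), Algebra.trdeg ℂ K = n →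
        VarietyConeConjecture K n) ↔
      ∀ (K : Type) [Field K] [Algebra ℂ K] (n b : ℕ), Algebra.trdeg ℂ K = n → 1 ≤ b →
        PairConeConjecture K n b) ∧
    (RuledConeConjecture ↔
      ∀ (K : Type) [Field K] [Algebra ℂ K] (n b : ℕ), Algebra.trdeg ℂ K = n → 1 ≤ b →
        PairConeConjecture K n b) :=
  ⟨fun K _ _ _ _ _ _ _ hn hn1 hb hy hΔ hcar =>
    cone_removal K hb hn1 hn hy hΔ hcar, cone_equivalence⟩

end Pool.Agent.Results.MP_9f99c5_ag.BoundaryRemovalCones
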